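import Mathlib

set_option autoImplicit false

namespace Pool.Agent.N926.Pasc

theorem chk_3_2 (a1 a2 b1 b2 b3 b4 : ZMod 3)
    (e1 : b1 + a1 = 1)
    (e2 : b2 + a1 * b1 + a2 = 0)
    (e3 : b3 + a1 * b2 + a2 * b1 = 0)
    (e4 : b4 + a1 * b3 + a2 * b2 = 0)
    (e5 : a1 * b4 + a2 * b3 = 0)
    (e6 : a2 * b4 = 2)
    : False := by
  have h1 : b1 = 1 - (a1) := by linear_combination e1
  have h2 : b2 = 0 - (a1 * b1 + a2) := by linear_combination e2
  have h3 : b3 = 0 - (a1 * b2 + a2 * b1) := by linear_combination e3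
  have h4 : b4 = 0 - (a1 * b3 + a2 * b2) := by linear_combination e4
  clear e1 e2 e3 e4
  subst h4
  subst h3
  subst h2
  subst h1
  revert a1 a2
  decide +kernel

theorem chk_6_2 (a1 a2 b1 b2 b3 b4 b5 b6 b7 b8 b9 b10 : ZMod 13)
    (e1 : b1 + a1 = 1)
    (e2 : b2 + a1 * b1 + a2 = 12)
    (e3 : b3 + a1 * b2 + a2 * b1 = 12)
    (e4 : b4 + a1 * b3 + a2 * b2 = 1)
    (e5 : b5 + a1 * b4 + a2 * b3 = 1)
    (e6 : b6 + a1 * b5 + a2 * b4 = 12)
    (e7 : b7 + a1 * b6 + a2 * b5 = 12)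
    (e8 : b8 + a1 * b7 + a2 * b6 = 1)
    (e9 : b9 + a1 * b8 + a2 * b7 = 1)
    (e10 : b10 + a1 * b9 + a2 * b8 = 12)
    (e11 : a1 * b10 + a2 * b9 = 12)
    (e12 : a2 * b10 = 1)
    : False := by
  have h1 : b1 = 1 - (a1) := by linear_combination e1
  have h2 : b2 = 12 - (a1 * b1 + a2) := by linear_combination e2
  have h3 : b3 = 12 - (a1 * b2 + a2 * b1) := by linear_combination e3
  have h4 : b4 = 1 - (a1 * b3 + a2 * b2) := by linear_combination e4
  have h5 : b5 = 1 - (a1 * b4 + a2 * b3) := by linear_combination e5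
  have h6 : b6 = 12 - (a1 * b5 + a2 * b4) := by linear_combination e6
  have h7 : b7 = 12 - (a1 * b6 + a2 * b5) := by linear_combination e7
  have h8 : b8 = 1 - (a1 * b7 + a2 * b6) := by linear_combination e8
  have h9 : b9 = 1 - (a1 * b8 + a2 * b7) := by linear_combination e9
  have h10 : b10 = 12 - (a1 * b9 + a2 * b8) := by linear_combination e10
  clear e1 e2 e3 e4 e5 e6 e7 e8 e9 e10
  subst h10
  subst h9
  subst h8
  subst h7
  subst h6
  subst h5
  subst h4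
  subst h3
  subst h2
  subst h1
  revert a1 a2
  decide +kernel

theorem chk_5_4 (a1 a2 a3 a4 b1 b2 b3 b4 b5 b6 : ZMod 5)
    (e1 : b1 + a1 = 1)
    (e2 : b2 + a1 * b1 + a2 = 0)
    (e3 : b3 + a1 * b2 + a2 * b1 + a3 = 0)
    (e4 : b4 + a1 * b3 + a2 * b2 + a3 * b1 + a4 = 0)
    (e5 : b5 + a1 * b4 + a2 * b3 + a3 * b2 + a4 * b1 = 0)
    (e6 : b6 + a1 * b5 + a2 * b4 + a3 * b3 + a4 * b2 = 0)
    (e7 : a1 * b6 + a2 * b5 + a3 * b4 + a4 * b3 = 0)
    (e8 : a2 * b6 + a3 * b5 + a4 * b4 = 0)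
    (e9 : a3 * b6 + a4 * b5 = 0)
    (e10 : a4 * b6 = 2)
    : False := by
  have h1 : b1 = 1 - (a1) := by linear_combination e1
  have h2 : b2 = 0 - (a1 * b1 + a2) := by linear_combination e2
  have h3 : b3 = 0 - (a1 * b2 + a2 * b1 + a3) := by linear_combination e3
  have h4 : b4 = 0 - (a1 * b3 + a2 * b2 + a3 * b1 + a4) := by linear_combination e4
  have h5 : b5 = 0 - (a1 * b4 + a2 * b3 + a3 * b2 + a4 * b1) := by linear_combination e5
  have h6 : b6 = 0 - (a1 * b5 + a2 * b4 + a3 * b3 + a4 * b2) := by linear_combination e6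
  clear e1 e2 e3 e4 e5 e6
  subst h6
  subst h5
  subst h4
  subst h3
  subst h2
  subst h1
  revert a1 a2 a3 a4
  decide +kernel

end Pool.Agent.N926.Pasc
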