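import Pool.Agent.N926.Pasc.Poly

set_option autoImplicit false

namespace Pool.Agent.N926.Pasc

open Nat Finset Polynomial

/-- for a prime `q` with `N < q ≤ 2N` and a square root `ι` of `-1` in characteristic `q` at most one
of the two factors of `PZ N` vanishes at `ι` -/
theorem star {q N : ℕ} (hq : q.Prime) (hq2 : q ≠ 2) (h1 : N < q) (h2 : q ≤ 2 * N)
    {K : Type*} [Field K] [CharP K q] (ι : K) (hι : ι ^ 2 = -1) {g h : ℤ[X]} (hgh : g * h = PZ N) :
    ¬ (g.eval₂ (Int.castRingHom K) ι = 0 ∧ h.eval₂ (Int.castRingHom K) ι = 0) := by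
  rintro ⟨hg0, hh0⟩
  have hN : 1 ≤ N := by have := hq.two_le; omega
  have hqZ : Prime (q : ℤ) := Nat.prime_iff_prime_int.1 hq
  have hdvd := dvd_lead hq h1 h2
  rw [choose_half N hN] at hdvd
  set M : ℕ := (2 * N - 1).choose (N - 1) with hM
  have hM2 : ¬ ((q : ℤ) ^ 2 ∣ (M : ℤ)) := by
    intro h
    apply hdvd.2
    have : q ^ 2 ∣ M := by exact_mod_cast h
    exact this.mul_left 2
  -- values at `i`
  set I : GaussianInt := ⟨0, 1⟩ with hI
  have hI2 : I ^ 2 = -1 := by
    rw [pow_two, hI]
    ext <;> simp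
  set G := g.eval₂ (Int.castRingHom GaussianInt) I with hG
  set H := h.eval₂ (Int.castRingHom GaussianInt) I with hH
  have hGH : G * H = (-1) ^ N * ((M : ℕ) : GaussianInt) * (1 - I) := by
    rw [hG, hH, ← eval₂_mul, hgh, eval₂_sqrt _ _ hI2 N hN]
  obtain ⟨ε, hε, hε2⟩ : ∃ ε : ℤ, ((-1 : GaussianInt)) ^ N = (ε : GaussianInt) ∧ ε * ε = 1 := by
    refine ⟨(-1) ^ N, by push_cast; rfl, ?_⟩
    rw [← pow_add, ← two_mul, pow_mul]; norm_num
  have hcast : ((M : ℕ) : GaussianInt) = ((M : ℤ) : GaussianInt) := by push_cast; rfl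
  rw [hε, hcast] at hGH
  have hre : G.re * H.re - G.im * H.im = ε * M := by
    have := congrArg Zsqrtd.re hGH
    rw [← Int.cast_mul] at this
    simp [hI] at this
    linarith
  have him : G.re * H.im + G.im * H.re = -(ε * M) := by
    have := congrArg Zsqrtd.im hGH
    rw [← Int.cast_mul] at this
    simp [hI] at this
    linarith
  -- the map to `K`
  set ψ : GaussianInt →+* K := Zsqrtd.lift ⟨ι, by rw [← pow_two, hι]; simp⟩ with hψ
  have hψv : ∀ z : GaussianInt, ψ z = (z.re : K) + (z.im : K) * ι := fun z => by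
    rw [hψ]; rfl
  have hψI : ψ I = ι := by rw [hψv, hI]; simp
  have hcomp : ψ.comp (Int.castRingHom GaussianInt) = Int.castRingHom K := RingHom.ext_int _ _
  have hgI : (G.re : K) + (G.im : K) * ι = 0 := by
    rw [← hψv, hG, hom_eval₂, hcomp, hψI, hg0]
  have hhI : (H.re : K) + (H.im : K) * ι = 0 := by
    rw [← hψv, hH, hom_eval₂, hcomp, hψI, hh0]
  have hzero : ∀ z : ℤ, (z : K) = 0 ↔ (q : ℤ) ∣ z := fun z => CharP.intCast_eq_zero_iff K q z
  by_cases hs : ∃ s : ℤ, ι = (s : K)
  · obtain ⟨s, hs⟩ := hs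
    -- Hensel
    have hk : (q : ℤ) ∣ s ^ 2 + 1 := by
      rw [← hzero]; push_cast; rw [← hs, hι]; ring
    obtain ⟨k, hk⟩ := hk
    have hcop : IsCoprime (2 * s) (q : ℤ) := by
      rw [isCoprime_comm]
      refine (hqZ.coprime_iff_not_dvd).2 fun h => ?_
      rcases hqZ.dvd_or_dvd h with h | h
      · have h3 : q ∣ 2 := by exact_mod_cast h
        exact hq2 ((Nat.prime_dvd_prime_iff_eq hq Nat.prime_two).1 h3)
      · have h3 : (q : ℤ) ∣ 1 := by
          have h4 : (q : ℤ) ∣ s ^ 2 + 1 := ⟨k, hk⟩
          have h5 : (q : ℤ) ∣ s ^ 2 := h.trans (dvd_pow_self s (by norm_num))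
          have := dvd_sub h4 h5
          rwa [add_sub_cancel_left] at this
        exact hqZ.not_unit (isUnit_of_dvd_one h3)
    obtain ⟨u, v, huv⟩ := hcop
    set s' : ℤ := s + q * (-(k * u)) with hs'
    have hs'2 : (q : ℤ) ^ 2 ∣ s' ^ 2 + 1 := by
      refine ⟨k * v + (k * u) ^ 2, ?_⟩
      have h3 : k = k * u * (2 * s) + k * v * q := by
        calc k = k * (u * (2 * s) + v * q) := by rw [huv, mul_one]
          _ = _ := by ring
      have h4 : s ^ 2 + 1 = q * (k * u * (2 * s) + k * v * q) := by rw [← h3, hk]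
      rw [hs']
      linear_combination h4
    have hs'K : ι = (s' : K) := by
      rw [hs']
      push_cast
      rw [show ((q : ℕ) : K) = 0 from CharP.cast_eq_zero K q, zero_mul, add_zero, hs]
    have h3 : (q : ℤ) ∣ G.re + G.im * s' := by
      rw [← hzero]; push_cast; rw [← hs'K]; exact hgI
    have h4 : (q : ℤ) ∣ H.re + H.im * s' := by
      rw [← hzero]; push_cast; rw [← hs'K]; exact hhI
    have h5 : (q : ℤ) ^ 2 ∣ (G.re + G.im * s') * (H.re + H.im * s') := by
      rw [pow_two]; exact mul_dvd_mul h3 h4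
    have h6 : (G.re + G.im * s') * (H.re + H.im * s') =
        ε * M * (1 - s') + G.im * H.im * (s' ^ 2 + 1) := by
      linear_combination hre + s' * him
    rw [h6] at h5
    have h7 : (q : ℤ) ^ 2 ∣ ε * M * (1 - s') := by
      have := dvd_sub h5 (hs'2.mul_left (G.im * H.im))
      rwa [add_sub_cancel_right] at this
    have h8 : (q : ℤ) ^ 2 ∣ M * (1 - s') := by
      have := h7.mul_left ε
      have h9 : ε * (ε * M * (1 - s')) = M * (1 - s') := by
        calc ε * (ε * M * (1 - s')) = (ε * ε) * (M * (1 - s')) := by ring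
          _ = _ := by rw [hε2, one_mul]
      rwa [h9] at this
    have h9 : (q : ℤ) ∣ 1 - s' := by
      by_contra h10
      apply hM2
      have h11 : IsCoprime ((q : ℤ) ^ 2) (1 - s') :=
        IsCoprime.pow_left ((hqZ.coprime_iff_not_dvd).2 h10)
      exact h11.dvd_of_dvd_mul_right h8
    have h10 : (q : ℤ) ∣ 2 := by
      have h11 : (q : ℤ) ∣ s' ^ 2 + 1 := (dvd_pow_self _ (by norm_num)).trans hs'2
      have h12 : s' ^ 2 + 1 + (1 - s') * (1 + s') = 2 := by ring
      rw [← h12]
      exact dvd_add h11 (h9.mul_right _)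
    have h11 : q ∣ 2 := by exact_mod_cast h10
    exact hq2 ((Nat.prime_dvd_prime_iff_eq hq Nat.prime_two).1 h11)
  · -- `ι` is not in the prime field
    have key : ∀ a b : ℤ, (a : K) + (b : K) * ι = 0 → (q : ℤ) ∣ a ∧ (q : ℤ) ∣ b := by
      intro a b hab
      have hb : (q : ℤ) ∣ b := by
        by_contra hb
        apply hs
        obtain ⟨u, v, huv⟩ := (hqZ.coprime_iff_not_dvd).2 hb
        have hv : (v : K) * (b : K) = 1 := by
          have := congrArg (Int.cast : ℤ → K) huv
          push_cast at this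
          rw [show ((q : ℕ) : K) = 0 from CharP.cast_eq_zero K q, mul_zero, zero_add] at this
          exact this
        refine ⟨-(v * a), ?_⟩
        push_cast
        calc ι = (v * b) * ι := by rw [hv, one_mul]
          _ = v * (a + b * ι) - v * a := by ring
          _ = _ := by rw [hab]; ring
      refine ⟨?_, hb⟩
      rw [← hzero]
      rw [(hzero b).2 hb, zero_mul, add_zero] at hab
      exact hab
    obtain ⟨h3, h4⟩ := key _ _ hgI
    obtain ⟨h5, h6⟩ := key _ _ hhI
    have h7 : (q : ℤ) ^ 2 ∣ ε * M := by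
      rw [← hre, pow_two]
      exact dvd_sub (mul_dvd_mul h3 h5) (mul_dvd_mul h4 h6)
    apply hM2
    have := h7.mul_left ε
    rwa [← mul_assoc, hε2, one_mul] at this

/-- possible degrees of a factor whose leading coefficient is prime to `q` -/
theorem degrees {q N : ℕ} (hq : q.Prime) (hq2 : q ≠ 2) (h1 : N < q) (h2 : q ≤ 2 * N)
    {g h : ℤ[X]} (hgh : g * h = PZ N) (hlc : ¬ (q : ℤ) ∣ h.leadingCoeff) :
    ∃ α β γ : ℕ, α ≤ 1 ∧ (β = 0 ∨ β = 2 * N - q) ∧ (γ = 0 ∨ γ = 2 * N - q) ∧
      h.natDegree = α + β + γ := by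
  classical
  have := Fact.mk hq
  set K := AlgebraicClosure (ZMod q) with hK
  set f : ℤ →+* K := Int.castRingHom K with hf
  set r := 2 * N - q with hr
  have hq0 : ((q : ℕ) : K) = 0 := CharP.cast_eq_zero K q
  have hlcK : f h.leadingCoeff ≠ 0 := by
    intro h3
    apply hlc
    rw [hf, eq_intCast] at h3
    exact (CharP.intCast_eq_zero_iff K q _).1 h3
  have hdeg : (h.map f).natDegree = h.natDegree := natDegree_map_of_leadingCoeff_ne_zero f hlcK
  have hprod : g.map f * h.map f = (1 + X) * (X ^ 2 + 1) ^ r := by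
    rw [← Polynomial.map_mul, hgh, map_mod hq h1 h2 f]
  obtain ⟨ι, hι⟩ := IsAlgClosed.exists_pow_nat_eq (-1 : K) (show 0 < 2 by norm_num)
  have h2K : (2 : K) ≠ 0 := by
    intro h3
    have h4 : ((2 : ℕ) : K) = 0 := by exact_mod_cast h3
    rw [CharP.cast_eq_zero_iff K q] at h4
    exact hq2 ((Nat.prime_dvd_prime_iff_eq hq Nat.prime_two).1 h4)
  have hfac : (1 + X) * (X ^ 2 + 1) ^ r =
      (X - C (-1)) * ((X - C ι) ^ r * (X - C (-ι)) ^ r : K[X]) := by
    rw [← mul_pow]
    have h3 : (X - C ι) * (X - C (-ι)) = (X ^ 2 + 1 : K[X]) := by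
      have h4 : (C ι * C ι : K[X]) = -1 := by rw [← C_mul, ← pow_two, hι]; simp
      rw [C_neg]
      linear_combination -h4
    rw [h3]
    simp only [map_neg, map_one, sub_neg_eq_add]
    ring
  have hne : g.map f * h.map f ≠ 0 := by
    rw [hprod, hfac]
    exact mul_ne_zero (X_sub_C_ne_zero _)
      (mul_ne_zero (pow_ne_zero _ (X_sub_C_ne_zero _)) (pow_ne_zero _ (X_sub_C_ne_zero _)))
  have hroots : (g.map f).roots + (h.map f).roots = {-1} + (r • {ι} + r • {-ι}) := by
    rw [← roots_mul hne, hprod, hfac, roots_mul, roots_mul, roots_pow, roots_pow,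
      roots_X_sub_C, roots_X_sub_C, roots_X_sub_C]
    · exact mul_ne_zero (pow_ne_zero _ (X_sub_C_ne_zero _)) (pow_ne_zero _ (X_sub_C_ne_zero _))
    · rw [← hfac, ← hprod]; exact hne
  have hd1 : ι ≠ -ι := by
    intro h3
    have h4 : 2 * ι = 0 := by linear_combination h3
    rcases mul_eq_zero.1 h4 with h5 | h5
    · exact h2K h5
    · rw [h5] at hι; norm_num at hι
  have hd2 : (-1 : K) ≠ ι := by
    intro h3
    rw [← h3] at hι
    apply h2K
    linear_combination hι
  have hd3 : (-1 : K) ≠ -ι := by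
    intro h3
    have h4 : ι = 1 := by linear_combination h3
    rw [h4] at hι
    apply h2K
    linear_combination hι
  have hc : ∀ x, (g.map f).roots.count x + (h.map f).roots.count x =
      (({-1} : Multiset K) + (r • {ι} + r • {-ι})).count x := fun x => by
    rw [← hroots, Multiset.count_add]
  have hcard : (h.map f).roots.card = h.natDegree := by
    rw [← hdeg]
    exact (splits_iff_card_roots.1 (IsAlgClosed.splits _))
  have hmem : ∀ x ∈ (h.map f).roots, x ∈ ({-1, ι, -ι} : Finset K) := by
    intro x hx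
    have h3 : x ∈ (g.map f).roots + (h.map f).roots := Multiset.mem_add.2 (Or.inr hx)
    rw [hroots, Multiset.mem_add, Multiset.mem_add, Multiset.mem_singleton] at h3
    rw [Finset.mem_insert, Finset.mem_insert, Finset.mem_singleton]
    rcases h3 with h3 | h3 | h3
    · exact Or.inl h3
    · exact Or.inr (Or.inl (Multiset.mem_singleton.1 (Multiset.mem_of_mem_nsmul h3)))
    · exact Or.inr (Or.inr (Multiset.mem_singleton.1 (Multiset.mem_of_mem_nsmul h3)))
  have hsum := Multiset.sum_count_eq_card hmem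
  rw [Finset.sum_insert, Finset.sum_insert, Finset.sum_singleton, hcard] at hsum
  · have hone : ∀ x : K, x ^ 2 = -1 → (h.map f).roots.count x = 0 ∨ (g.map f).roots.count x = 0 := by
      intro x hx
      by_contra hcon
      rw [not_or] at hcon
      have h3 : x ∈ (h.map f).roots := Multiset.count_ne_zero.1 hcon.1
      have h4 : x ∈ (g.map f).roots := Multiset.count_ne_zero.1 hcon.2
      have h5 := (mem_roots'.1 h3).2
      have h6 := (mem_roots'.1 h4).2
      rw [IsRoot, eval_map] at h5 h6
      exact star hq hq2 h1 h2 x hx hgh ⟨h6, h5⟩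
    refine ⟨(h.map f).roots.count (-1), (h.map f).roots.count ι, (h.map f).roots.count (-ι),
      ?_, ?_, ?_, ?_⟩
    · have h3 := hc (-1)
      rw [Multiset.count_add, Multiset.count_add, Multiset.count_nsmul, Multiset.count_nsmul,
        Multiset.count_singleton_self, Multiset.count_singleton, Multiset.count_singleton,
        if_neg hd2, if_neg hd3] at h3
      omega
    · have h3 := hc ι
      rw [Multiset.count_add, Multiset.count_add, Multiset.count_nsmul, Multiset.count_nsmul,
        Multiset.count_singleton_self, Multiset.count_singleton, Multiset.count_singleton,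
        if_neg hd2.symm, if_neg hd1] at h3
      rcases hone ι hι with h4 | h4
      · exact Or.inl h4
      · right; omega
    · have h3 := hc (-ι)
      rw [Multiset.count_add, Multiset.count_add, Multiset.count_nsmul, Multiset.count_nsmul,
        Multiset.count_singleton_self, Multiset.count_singleton, Multiset.count_singleton,
        if_neg hd3.symm, if_neg hd1.symm] at h3
      rcases hone (-ι) (by rw [neg_sq, hι]) with h4 | h4
      · exact Or.inl h4
      · right; omega
    · omega
  · rw [Finset.mem_singleton]; exact hd1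
  · rw [Finset.mem_insert, Finset.mem_singleton]
    rintro (h3 | h3)
    · exact hd2 h3
    · exact hd3 h3

/-- degrees of factors are even -/
theorem even_natDegree {N : ℕ} (hN : 1 ≤ N) {g h : ℤ[X]} (hgh : g * h = PZ N) :
    Even h.natDegree := by
  set f := Int.castRingHom ℝ with hf
  have hinj : Function.Injective f := Int.cast_injective
  have hdeg : (h.map f).natDegree = h.natDegree := natDegree_map_eq_of_injective hinj _
  have hno : ∀ y, ¬ (h.map f).IsRoot y := by
    intro y hy
    have h1 := pos_of_real N hN y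
    rw [← hgh, eval₂_mul] at h1
    rw [IsRoot, eval_map] at hy
    rw [hf] at hy
    rw [hy, mul_zero] at h1
    exact lt_irrefl _ h1
  rw [← hdeg]
  by_contra hodd
  rw [Nat.not_even_iff_odd] at hodd
  have hsgn : ((Int.negOnePow ((h.map f).natDegree : ℤ) : ℤˣ) : ℝ) = -1 := by
    rw [Int.negOnePow_odd _ (by exact_mod_cast hodd)]; simp
  have hno' : ∀ y, ¬ (-(h.map f)).IsRoot y := by
    intro y hy
    apply hno y
    rw [IsRoot, eval_neg, neg_eq_zero] at hy
    exact hy
  rcases le_total 0 (h.map f).leadingCoeff with hlc | hlc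
  · have h1 := zero_lt_eval_of_roots_lt_of_leadingCoeff_nonneg (x := 0)
      (fun y hy => absurd hy (hno y)) hlc
    have h2 := zero_lt_negOnePow_mul_eval_of_lt_roots_of_leadingCoeff_nonneg (x := 0)
      (fun y hy => absurd hy (hno y)) hlc
    rw [hsgn] at h2
    linarith
  · have h1 := eval_lt_zero_of_roots_lt_of_leadingCoeff_nonpos (x := 0)
      (fun y hy => absurd hy (hno y)) hlc
    have h2 := negOnePow_mul_eval_lt_zero_of_lt_roots_of_leadingCoeff_nonpos (x := 0)
      (fun y hy => absurd hy (hno y)) hlc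
    rw [hsgn] at h2
    linarith

end Pool.Agent.N926.Pasc
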