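import Pool.Agent.N926.Pasc.Primes
import Pool.Agent.N926.Pasc.Factor
import Pool.Agent.N926.Pasc.Chk

set_option autoImplicit false
set_option linter.unusedSimpArgs false

namespace Pool.Agent.N926.Pasc

open Nat Finset Polynomial

theorem deg_cases {q N d : ℕ} (hq : Odd q) (h2 : q ≤ 2 * N) (hd : Even d)
    (h : ∃ α β γ : ℕ, α ≤ 1 ∧ (β = 0 ∨ β = 2 * N - q) ∧ (γ = 0 ∨ γ = 2 * N - q) ∧
      d = α + β + γ) : d = 0 ∨ d = 2 * N - q + 1 ∨ d = 2 * (2 * N - q) := by
  obtain ⟨α, β, γ, h3, h4, h5, h6⟩ := h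
  obtain ⟨m, hm⟩ := hq
  obtain ⟨e, he⟩ := hd
  omega

/-- a factorization of `PZ N` into two factors of positive degree puts each odd prime of
`(N, 2N]` in a set of four numbers -/
theorem four {N : ℕ} (hN : 1 ≤ N) {g h : ℤ[X]} (hgh : g * h = PZ N) (hg : 0 < g.natDegree)
    (hh : 0 < h.natDegree) {q : ℕ} (hq : q.Prime) (hq2 : q ≠ 2) (h1 : N < q) (h2 : q ≤ 2 * N) :
    q = 2 * N + 1 - h.natDegree ∨ q = 2 * N - h.natDegree / 2 ∨ q = h.natDegree + 1 ∨
      q = N + h.natDegree / 2 := by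
  have hqo : Odd q := hq.odd_of_ne_two hq2
  have hhg : h * g = PZ N := by rw [mul_comm]; exact hgh
  have heh := even_natDegree hN hgh
  have heg := even_natDegree hN hhg
  have hg0 : g ≠ 0 := by rintro rfl; simp at hg
  have hh0 : h ≠ 0 := by rintro rfl; simp at hh
  have hsum : g.natDegree + h.natDegree = 2 * N := by
    rw [← natDegree_mul hg0 hh0, hgh, natDegree_PZ]
  have hlc : g.leadingCoeff * h.leadingCoeff = (((2 * N).choose N : ℕ) : ℤ) := by
    rw [← leadingCoeff_mul, hgh, leadingCoeff_PZ]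
  obtain ⟨e1, he1⟩ := heh
  obtain ⟨e2, he2⟩ := heg
  by_cases hc : (q : ℤ) ∣ h.leadingCoeff
  · have hc' : ¬ (q : ℤ) ∣ g.leadingCoeff := by
      intro hc'
      apply (dvd_lead hq h1 h2).2
      have h3 := mul_dvd_mul hc' hc
      rw [hlc, ← pow_two] at h3
      exact_mod_cast h3
    have h4 := deg_cases hqo h2 (even_natDegree hN hhg) (degrees hq hq2 h1 h2 hhg hc')
    omega
  · have h4 := deg_cases hqo h2 (even_natDegree hN hgh) (degrees hq hq2 h1 h2 hgh hc)
    omega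

/-- the large case -/
theorem large_case {N : ℕ} (hN : 21 ≤ N) {g h : ℤ[X]} (hgh : g * h = PZ N) (hg : 0 < g.natDegree)
    (hh : 0 < h.natDegree) : False := by
  have h5 := five_primes N hN
  have hsub : PS N ⊆ {2 * N + 1 - h.natDegree, 2 * N - h.natDegree / 2, h.natDegree + 1,
      N + h.natDegree / 2} := by
    intro q hq
    rw [PS, Finset.mem_filter, Finset.mem_Ioc] at hq
    have := four (by omega) hgh hg hh hq.2 (by omega) hq.1.1 hq.1.2
    simp only [Finset.mem_insert, Finset.mem_singleton]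
    exact this
  have h4 := (Finset.card_le_card hsub).trans (Finset.card_le_four)
  omega

/-- normalised factorizations -/
theorem normalise {N : ℕ} (hN : 1 ≤ N) {g h : ℤ[X]} (hgh : g * h = PZ N) :
    ∃ g' h' : ℤ[X], g' * h' = PZ N ∧ g'.natDegree = g.natDegree ∧ h'.natDegree = h.natDegree ∧
      g'.coeff 0 = 1 ∧ h'.coeff 0 = 1 := by
  have h0 : g.coeff 0 * h.coeff 0 = 1 := by
    rw [← mul_coeff_zero, hgh, coeff_zero_PZ N hN]
  rcases Int.mul_eq_one_iff_eq_one_or_neg_one.1 h0 with ⟨h1, h2⟩ | ⟨h1, h2⟩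
  · exact ⟨g, h, hgh, rfl, rfl, h1, h2⟩
  · refine ⟨-g, -h, by rw [neg_mul_neg]; exact hgh, natDegree_neg _, natDegree_neg _, ?_, ?_⟩
    · rw [coeff_neg, h1]; rfl
    · rw [coeff_neg, h2]; rfl

theorem coeff_conv {p : ℤ[X]} {g h : ℤ[X]} (hgh : g * h = p) (R : Type*) [CommRing R] (k : ℕ) :
    ∑ i ∈ range (k + 1), ((g.coeff i : ℤ) : R) * ((h.coeff (k - i) : ℤ) : R) =
      ((p.coeff k : ℤ) : R) := by
  rw [← hgh, coeff_mul, Finset.Nat.sum_antidiagonal_eq_sum_range_succ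
    (fun i j => g.coeff i * h.coeff j)]
  push_cast
  rfl

theorem PZ3_eq : PZ 3 = 1 + X + C 6 * X ^ 2 + C 6 * X ^ 3 + C 15 * X ^ 4 + C 15 * X ^ 5 + C 20 * X ^ 6 := by
  rw [PZ]
  simp [Finset.sum_range_succ, Nat.choose]
  ring

theorem PZ3_coeff : (PZ 3).coeff 0 = 1 ∧ (PZ 3).coeff 1 = 1 ∧ (PZ 3).coeff 2 = 6 ∧ (PZ 3).coeff 3 = 6 ∧ (PZ 3).coeff 4 = 15 ∧ (PZ 3).coeff 5 = 15 ∧ (PZ 3).coeff 6 = 20 := by
  rw [PZ3_eq]
  simp only [coeff_add, coeff_C_mul, coeff_X_pow, coeff_one, coeff_X]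
  norm_num

theorem PZ5_eq : PZ 5 = 1 + X + C 10 * X ^ 2 + C 10 * X ^ 3 + C 45 * X ^ 4 + C 45 * X ^ 5 + C 120 * X ^ 6 + C 120 * X ^ 7 + C 210 * X ^ 8 + C 210 * X ^ 9 + C 252 * X ^ 10 := by
  rw [PZ]
  simp [Finset.sum_range_succ, Nat.choose]
  ring

theorem PZ5_coeff : (PZ 5).coeff 0 = 1 ∧ (PZ 5).coeff 1 = 1 ∧ (PZ 5).coeff 2 = 10 ∧ (PZ 5).coeff 3 = 10 ∧ (PZ 5).coeff 4 = 45 ∧ (PZ 5).coeff 5 = 45 ∧ (PZ 5).coeff 6 = 120 ∧ (PZ 5).coeff 7 = 120 ∧ (PZ 5).coeff 8 = 210 ∧ (PZ 5).coeff 9 = 210 ∧ (PZ 5).coeff 10 = 252 := by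
  rw [PZ5_eq]
  simp only [coeff_add, coeff_C_mul, coeff_X_pow, coeff_one, coeff_X]
  norm_num

theorem PZ6_eq : PZ 6 = 1 + X + C 12 * X ^ 2 + C 12 * X ^ 3 + C 66 * X ^ 4 + C 66 * X ^ 5 + C 220 * X ^ 6 + C 220 * X ^ 7 + C 495 * X ^ 8 + C 495 * X ^ 9 + C 792 * X ^ 10 + C 792 * X ^ 11 + C 924 * X ^ 12 := by
  rw [PZ]
  simp [Finset.sum_range_succ, Nat.choose]
  ring

theorem PZ6_coeff : (PZ 6).coeff 0 = 1 ∧ (PZ 6).coeff 1 = 1 ∧ (PZ 6).coeff 2 = 12 ∧ (PZ 6).coeff 3 = 12 ∧ (PZ 6).coeff 4 = 66 ∧ (PZ 6).coeff 5 = 66 ∧ (PZ 6).coeff 6 = 220 ∧ (PZ 6).coeff 7 = 220 ∧ (PZ 6).coeff 8 = 495 ∧ (PZ 6).coeff 9 = 495 ∧ (PZ 6).coeff 10 = 792 ∧ (PZ 6).coeff 11 = 792 ∧ (PZ 6).coeff 12 = 924 := by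
  rw [PZ6_eq]
  simp only [coeff_add, coeff_C_mul, coeff_X_pow, coeff_one, coeff_X]
  norm_num

theorem no_3_2 {g h : ℤ[X]} (hgh : g * h = PZ 3) (hg0 : g.coeff 0 = 1)
    (hh0 : h.coeff 0 = 1) (hg : g.natDegree = 2) : False := by
  have hh : h.natDegree = 4 := by
    have hgz : g ≠ 0 := by rintro rfl; simp at hg0
    have hhz : h ≠ 0 := by rintro rfl; simp at hh0
    have hsum : g.natDegree + h.natDegree = 2 * 3 := by
      rw [← natDegree_mul hgz hhz, hgh, natDegree_PZ]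
    omega
  have hgc : ∀ i, 2 < i → g.coeff i = 0 := fun i hi => coeff_eq_zero_of_natDegree_lt (by omega)
  have hhc : ∀ i, 4 < i → h.coeff i = 0 := fun i hi => coeff_eq_zero_of_natDegree_lt (by omega)
  obtain ⟨p0, p1, p2, p3, p4, p5, p6⟩ := PZ3_coeff
  have hc := coeff_conv hgh (ZMod 3)
  have e1 := hc 1
  have e2 := hc 2
  have e3 := hc 3
  have e4 := hc 4
  have e5 := hc 5
  have e6 := hc 6
  simp only [Finset.sum_range_succ, Finset.sum_range_zero, Nat.reduceSub, Nat.reduceAdd, Nat.sub_zero, Nat.sub_self, hg0, hh0, p1, Int.cast_one, Int.cast_zero, mul_one, one_mul, mul_zero, zero_mul, add_zero, zero_add] at e1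
  simp only [Finset.sum_range_succ, Finset.sum_range_zero, Nat.reduceSub, Nat.reduceAdd, Nat.sub_zero, Nat.sub_self, hg0, hh0, p2, Int.cast_one, Int.cast_zero, mul_one, one_mul, mul_zero, zero_mul, add_zero, zero_add] at e2
  simp only [Finset.sum_range_succ, Finset.sum_range_zero, Nat.reduceSub, Nat.reduceAdd, Nat.sub_zero, Nat.sub_self, hg0, hh0, p3, hgc 3 (by norm_num), Int.cast_one, Int.cast_zero, mul_one, one_mul, mul_zero, zero_mul, add_zero, zero_add] at e3
  simp only [Finset.sum_range_succ, Finset.sum_range_zero, Nat.reduceSub, Nat.reduceAdd, Nat.sub_zero, Nat.sub_self, hg0, hh0, p4, hgc 3 (by norm_num), hgc 4 (by norm_num), Int.cast_one, Int.cast_zero, mul_one, one_mul, mul_zero, zero_mul, add_zero, zero_add] at e4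
  simp only [Finset.sum_range_succ, Finset.sum_range_zero, Nat.reduceSub, Nat.reduceAdd, Nat.sub_zero, Nat.sub_self, hg0, hh0, p5, hhc 5 (by norm_num), hgc 3 (by norm_num), hgc 4 (by norm_num), hgc 5 (by norm_num), Int.cast_one, Int.cast_zero, mul_one, one_mul, mul_zero, zero_mul, add_zero, zero_add] at e5
  simp only [Finset.sum_range_succ, Finset.sum_range_zero, Nat.reduceSub, Nat.reduceAdd, Nat.sub_zero, Nat.sub_self, hg0, hh0, p6, hhc 6 (by norm_num), hhc 5 (by norm_num), hgc 3 (by norm_num), hgc 4 (by norm_num), hgc 5 (by norm_num), hgc 6 (by norm_num), Int.cast_one, Int.cast_zero, mul_one, one_mul, mul_zero, zero_mul, add_zero, zero_add] at e6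
  have hz : ((3 : ℕ) : ZMod 3) = 0 := CharP.cast_eq_zero _ _
  push_cast at hz
  refine chk_3_2 ((g.coeff 1 : ℤ) : ZMod 3) ((g.coeff 2 : ℤ) : ZMod 3) ((h.coeff 1 : ℤ) : ZMod 3) ((h.coeff 2 : ℤ) : ZMod 3) ((h.coeff 3 : ℤ) : ZMod 3) ((h.coeff 4 : ℤ) : ZMod 3)
    ?_ ?_ ?_ ?_ ?_ ?_
  · linear_combination e1
  · push_cast at e2; linear_combination e2 + 2 * hz
  · push_cast at e3; linear_combination e3 + 2 * hz
  · push_cast at e4; linear_combination e4 + 5 * hz
  · push_cast at e5; linear_combination e5 + 5 * hz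
  · push_cast at e6; linear_combination e6 + 6 * hz

theorem no_6_2 {g h : ℤ[X]} (hgh : g * h = PZ 6) (hg0 : g.coeff 0 = 1)
    (hh0 : h.coeff 0 = 1) (hg : g.natDegree = 2) : False := by
  have hh : h.natDegree = 10 := by
    have hgz : g ≠ 0 := by rintro rfl; simp at hg0
    have hhz : h ≠ 0 := by rintro rfl; simp at hh0
    have hsum : g.natDegree + h.natDegree = 2 * 6 := by
      rw [← natDegree_mul hgz hhz, hgh, natDegree_PZ]
    omega
  have hgc : ∀ i, 2 < i → g.coeff i = 0 := fun i hi => coeff_eq_zero_of_natDegree_lt (by omega)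
  have hhc : ∀ i, 10 < i → h.coeff i = 0 := fun i hi => coeff_eq_zero_of_natDegree_lt (by omega)
  obtain ⟨p0, p1, p2, p3, p4, p5, p6, p7, p8, p9, p10, p11, p12⟩ := PZ6_coeff
  have hc := coeff_conv hgh (ZMod 13)
  have e1 := hc 1
  have e2 := hc 2
  have e3 := hc 3
  have e4 := hc 4
  have e5 := hc 5
  have e6 := hc 6
  have e7 := hc 7
  have e8 := hc 8
  have e9 := hc 9
  have e10 := hc 10
  have e11 := hc 11
  have e12 := hc 12
  simp only [Finset.sum_range_succ, Finset.sum_range_zero, Nat.reduceSub, Nat.reduceAdd, Nat.sub_zero, Nat.sub_self, hg0, hh0, p1, Int.cast_one, Int.cast_zero, mul_one, one_mul, mul_zero, zero_mul, add_zero, zero_add] at e1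
  simp only [Finset.sum_range_succ, Finset.sum_range_zero, Nat.reduceSub, Nat.reduceAdd, Nat.sub_zero, Nat.sub_self, hg0, hh0, p2, Int.cast_one, Int.cast_zero, mul_one, one_mul, mul_zero, zero_mul, add_zero, zero_add] at e2
  simp only [Finset.sum_range_succ, Finset.sum_range_zero, Nat.reduceSub, Nat.reduceAdd, Nat.sub_zero, Nat.sub_self, hg0, hh0, p3, hgc 3 (by norm_num), Int.cast_one, Int.cast_zero, mul_one, one_mul, mul_zero, zero_mul, add_zero, zero_add] at e3
  simp only [Finset.sum_range_succ, Finset.sum_range_zero, Nat.reduceSub, Nat.reduceAdd, Nat.sub_zero, Nat.sub_self, hg0, hh0, p4, hgc 3 (by norm_num), hgc 4 (by norm_num), Int.cast_one, Int.cast_zero, mul_one, one_mul, mul_zero, zero_mul, add_zero, zero_add] at e4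
  simp only [Finset.sum_range_succ, Finset.sum_range_zero, Nat.reduceSub, Nat.reduceAdd, Nat.sub_zero, Nat.sub_self, hg0, hh0, p5, hgc 3 (by norm_num), hgc 4 (by norm_num), hgc 5 (by norm_num), Int.cast_one, Int.cast_zero, mul_one, one_mul, mul_zero, zero_mul, add_zero, zero_add] at e5
  simp only [Finset.sum_range_succ, Finset.sum_range_zero, Nat.reduceSub, Nat.reduceAdd, Nat.sub_zero, Nat.sub_self, hg0, hh0, p6, hgc 3 (by norm_num), hgc 4 (by norm_num), hgc 5 (by norm_num), hgc 6 (by norm_num), Int.cast_one, Int.cast_zero, mul_one, one_mul, mul_zero, zero_mul, add_zero, zero_add] at e6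
  simp only [Finset.sum_range_succ, Finset.sum_range_zero, Nat.reduceSub, Nat.reduceAdd, Nat.sub_zero, Nat.sub_self, hg0, hh0, p7, hgc 3 (by norm_num), hgc 4 (by norm_num), hgc 5 (by norm_num), hgc 6 (by norm_num), hgc 7 (by norm_num), Int.cast_one, Int.cast_zero, mul_one, one_mul, mul_zero, zero_mul, add_zero, zero_add] at e7
  simp only [Finset.sum_range_succ, Finset.sum_range_zero, Nat.reduceSub, Nat.reduceAdd, Nat.sub_zero, Nat.sub_self, hg0, hh0, p8, hgc 3 (by norm_num), hgc 4 (by norm_num), hgc 5 (by norm_num), hgc 6 (by norm_num), hgc 7 (by norm_num), hgc 8 (by norm_num), Int.cast_one, Int.cast_zero, mul_one, one_mul, mul_zero, zero_mul, add_zero, zero_add] at e8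
  simp only [Finset.sum_range_succ, Finset.sum_range_zero, Nat.reduceSub, Nat.reduceAdd, Nat.sub_zero, Nat.sub_self, hg0, hh0, p9, hgc 3 (by norm_num), hgc 4 (by norm_num), hgc 5 (by norm_num), hgc 6 (by norm_num), hgc 7 (by norm_num), hgc 8 (by norm_num), hgc 9 (by norm_num), Int.cast_one, Int.cast_zero, mul_one, one_mul, mul_zero, zero_mul, add_zero, zero_add] at e9
  simp only [Finset.sum_range_succ, Finset.sum_range_zero, Nat.reduceSub, Nat.reduceAdd, Nat.sub_zero, Nat.sub_self, hg0, hh0, p10, hgc 3 (by norm_num), hgc 4 (by norm_num), hgc 5 (by norm_num), hgc 6 (by norm_num), hgc 7 (by norm_num), hgc 8 (by norm_num), hgc 9 (by norm_num), hgc 10 (by norm_num), Int.cast_one, Int.cast_zero, mul_one, one_mul, mul_zero, zero_mul, add_zero, zero_add] at e10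
  simp only [Finset.sum_range_succ, Finset.sum_range_zero, Nat.reduceSub, Nat.reduceAdd, Nat.sub_zero, Nat.sub_self, hg0, hh0, p11, hhc 11 (by norm_num), hgc 3 (by norm_num), hgc 4 (by norm_num), hgc 5 (by norm_num), hgc 6 (by norm_num), hgc 7 (by norm_num), hgc 8 (by norm_num), hgc 9 (by norm_num), hgc 10 (by norm_num), hgc 11 (by norm_num), Int.cast_one, Int.cast_zero, mul_one, one_mul, mul_zero, zero_mul, add_zero, zero_add] at e11
  simp only [Finset.sum_range_succ, Finset.sum_range_zero, Nat.reduceSub, Nat.reduceAdd, Nat.sub_zero, Nat.sub_self, hg0, hh0, p12, hhc 12 (by norm_num), hhc 11 (by norm_num), hgc 3 (by norm_num), hgc 4 (by norm_num), hgc 5 (by norm_num), hgc 6 (by norm_num), hgc 7 (by norm_num), hgc 8 (by norm_num), hgc 9 (by norm_num), hgc 10 (by norm_num), hgc 11 (by norm_num), hgc 12 (by norm_num), Int.cast_one, Int.cast_zero, mul_one, one_mul, mul_zero, zero_mul, add_zero, zero_add] at e12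
  have hz : ((13 : ℕ) : ZMod 13) = 0 := CharP.cast_eq_zero _ _
  push_cast at hz
  refine chk_6_2 ((g.coeff 1 : ℤ) : ZMod 13) ((g.coeff 2 : ℤ) : ZMod 13) ((h.coeff 1 : ℤ) : ZMod 13) ((h.coeff 2 : ℤ) : ZMod 13) ((h.coeff 3 : ℤ) : ZMod 13) ((h.coeff 4 : ℤ) : ZMod 13) ((h.coeff 5 : ℤ) : ZMod 13) ((h.coeff 6 : ℤ) : ZMod 13) ((h.coeff 7 : ℤ) : ZMod 13) ((h.coeff 8 : ℤ) : ZMod 13) ((h.coeff 9 : ℤ) : ZMod 13) ((h.coeff 10 : ℤ) : ZMod 13)
    ?_ ?_ ?_ ?_ ?_ ?_ ?_ ?_ ?_ ?_ ?_ ?_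
  · linear_combination e1
  · push_cast at e2; linear_combination e2
  · push_cast at e3; linear_combination e3
  · push_cast at e4; linear_combination e4 + 5 * hz
  · push_cast at e5; linear_combination e5 + 5 * hz
  · push_cast at e6; linear_combination e6 + 16 * hz
  · push_cast at e7; linear_combination e7 + 16 * hz
  · push_cast at e8; linear_combination e8 + 38 * hz
  · push_cast at e9; linear_combination e9 + 38 * hz
  · push_cast at e10; linear_combination e10 + 60 * hz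
  · push_cast at e11; linear_combination e11 + 60 * hz
  · push_cast at e12; linear_combination e12 + 71 * hz

theorem no_5_4 {g h : ℤ[X]} (hgh : g * h = PZ 5) (hg0 : g.coeff 0 = 1)
    (hh0 : h.coeff 0 = 1) (hg : g.natDegree = 4) : False := by
  have hh : h.natDegree = 6 := by
    have hgz : g ≠ 0 := by rintro rfl; simp at hg0
    have hhz : h ≠ 0 := by rintro rfl; simp at hh0
    have hsum : g.natDegree + h.natDegree = 2 * 5 := by
      rw [← natDegree_mul hgz hhz, hgh, natDegree_PZ]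
    omega
  have hgc : ∀ i, 4 < i → g.coeff i = 0 := fun i hi => coeff_eq_zero_of_natDegree_lt (by omega)
  have hhc : ∀ i, 6 < i → h.coeff i = 0 := fun i hi => coeff_eq_zero_of_natDegree_lt (by omega)
  obtain ⟨p0, p1, p2, p3, p4, p5, p6, p7, p8, p9, p10⟩ := PZ5_coeff
  have hc := coeff_conv hgh (ZMod 5)
  have e1 := hc 1
  have e2 := hc 2
  have e3 := hc 3
  have e4 := hc 4
  have e5 := hc 5
  have e6 := hc 6
  have e7 := hc 7
  have e8 := hc 8
  have e9 := hc 9
  have e10 := hc 10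
  simp only [Finset.sum_range_succ, Finset.sum_range_zero, Nat.reduceSub, Nat.reduceAdd, Nat.sub_zero, Nat.sub_self, hg0, hh0, p1, Int.cast_one, Int.cast_zero, mul_one, one_mul, mul_zero, zero_mul, add_zero, zero_add] at e1
  simp only [Finset.sum_range_succ, Finset.sum_range_zero, Nat.reduceSub, Nat.reduceAdd, Nat.sub_zero, Nat.sub_self, hg0, hh0, p2, Int.cast_one, Int.cast_zero, mul_one, one_mul, mul_zero, zero_mul, add_zero, zero_add] at e2
  simp only [Finset.sum_range_succ, Finset.sum_range_zero, Nat.reduceSub, Nat.reduceAdd, Nat.sub_zero, Nat.sub_self, hg0, hh0, p3, Int.cast_one, Int.cast_zero, mul_one, one_mul, mul_zero, zero_mul, add_zero, zero_add] at e3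
  simp only [Finset.sum_range_succ, Finset.sum_range_zero, Nat.reduceSub, Nat.reduceAdd, Nat.sub_zero, Nat.sub_self, hg0, hh0, p4, Int.cast_one, Int.cast_zero, mul_one, one_mul, mul_zero, zero_mul, add_zero, zero_add] at e4
  simp only [Finset.sum_range_succ, Finset.sum_range_zero, Nat.reduceSub, Nat.reduceAdd, Nat.sub_zero, Nat.sub_self, hg0, hh0, p5, hgc 5 (by norm_num), Int.cast_one, Int.cast_zero, mul_one, one_mul, mul_zero, zero_mul, add_zero, zero_add] at e5
  simp only [Finset.sum_range_succ, Finset.sum_range_zero, Nat.reduceSub, Nat.reduceAdd, Nat.sub_zero, Nat.sub_self, hg0, hh0, p6, hgc 5 (by norm_num), hgc 6 (by norm_num), Int.cast_one, Int.cast_zero, mul_one, one_mul, mul_zero, zero_mul, add_zero, zero_add] at e6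
  simp only [Finset.sum_range_succ, Finset.sum_range_zero, Nat.reduceSub, Nat.reduceAdd, Nat.sub_zero, Nat.sub_self, hg0, hh0, p7, hhc 7 (by norm_num), hgc 5 (by norm_num), hgc 6 (by norm_num), hgc 7 (by norm_num), Int.cast_one, Int.cast_zero, mul_one, one_mul, mul_zero, zero_mul, add_zero, zero_add] at e7
  simp only [Finset.sum_range_succ, Finset.sum_range_zero, Nat.reduceSub, Nat.reduceAdd, Nat.sub_zero, Nat.sub_self, hg0, hh0, p8, hhc 8 (by norm_num), hhc 7 (by norm_num), hgc 5 (by norm_num), hgc 6 (by norm_num), hgc 7 (by norm_num), hgc 8 (by norm_num), Int.cast_one, Int.cast_zero, mul_one, one_mul, mul_zero, zero_mul, add_zero, zero_add] at e8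
  simp only [Finset.sum_range_succ, Finset.sum_range_zero, Nat.reduceSub, Nat.reduceAdd, Nat.sub_zero, Nat.sub_self, hg0, hh0, p9, hhc 9 (by norm_num), hhc 8 (by norm_num), hhc 7 (by norm_num), hgc 5 (by norm_num), hgc 6 (by norm_num), hgc 7 (by norm_num), hgc 8 (by norm_num), hgc 9 (by norm_num), Int.cast_one, Int.cast_zero, mul_one, one_mul, mul_zero, zero_mul, add_zero, zero_add] at e9
  simp only [Finset.sum_range_succ, Finset.sum_range_zero, Nat.reduceSub, Nat.reduceAdd, Nat.sub_zero, Nat.sub_self, hg0, hh0, p10, hhc 10 (by norm_num), hhc 9 (by norm_num), hhc 8 (by norm_num), hhc 7 (by norm_num), hgc 5 (by norm_num), hgc 6 (by norm_num), hgc 7 (by norm_num), hgc 8 (by norm_num), hgc 9 (by norm_num), hgc 10 (by norm_num), Int.cast_one, Int.cast_zero, mul_one, one_mul, mul_zero, zero_mul, add_zero, zero_add] at e10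
  have hz : ((5 : ℕ) : ZMod 5) = 0 := CharP.cast_eq_zero _ _
  push_cast at hz
  refine chk_5_4 ((g.coeff 1 : ℤ) : ZMod 5) ((g.coeff 2 : ℤ) : ZMod 5) ((g.coeff 3 : ℤ) : ZMod 5) ((g.coeff 4 : ℤ) : ZMod 5) ((h.coeff 1 : ℤ) : ZMod 5) ((h.coeff 2 : ℤ) : ZMod 5) ((h.coeff 3 : ℤ) : ZMod 5) ((h.coeff 4 : ℤ) : ZMod 5) ((h.coeff 5 : ℤ) : ZMod 5) ((h.coeff 6 : ℤ) : ZMod 5)
    ?_ ?_ ?_ ?_ ?_ ?_ ?_ ?_ ?_ ?_
  · linear_combination e1
  · push_cast at e2; linear_combination e2 + 2 * hz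
  · push_cast at e3; linear_combination e3 + 2 * hz
  · push_cast at e4; linear_combination e4 + 9 * hz
  · push_cast at e5; linear_combination e5 + 9 * hz
  · push_cast at e6; linear_combination e6 + 24 * hz
  · push_cast at e7; linear_combination e7 + 24 * hz
  · push_cast at e8; linear_combination e8 + 42 * hz
  · push_cast at e9; linear_combination e9 + 42 * hz
  · push_cast at e10; linear_combination e10 + 50 * hz

theorem mid_check : ∀ N ∈ ({7, 9, 10, 11, 12, 13, 14, 15, 16, 17, 18, 19, 20} : Finset ℕ),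
    ∀ e ∈ Finset.range N, 0 < e → ∃ q ∈ ({11, 13, 17, 19, 23, 29, 31, 37} : Finset ℕ), N < q ∧ q ≤ 2 * N ∧
      q ≠ 2 * N + 1 - 2 * e ∧ q ≠ 2 * N - e ∧ q ≠ 2 * e + 1 ∧ q ≠ N + e := by
  decide

theorem map_two {N : ℕ} (hN : 1 ≤ N) (h1 : 2 ∣ (2 * N).choose N)
    (h2 : ∀ j ∈ range N, j ≠ 0 → 2 ∣ (2 * N).choose j) :
    (PZ N).map (Int.castRingHom (ZMod 2)) = 1 + X := by
  rw [map_PZ, (CharP.cast_eq_zero_iff (ZMod 2) 2 _).2 h1, C_0, zero_mul, add_zero,
    Finset.sum_eq_single 0]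
  · simp
  · intro j hj hj0
    rw [(CharP.cast_eq_zero_iff (ZMod 2) 2 _).2 (h2 j hj hj0), C_0, zero_mul]
  · intro h
    exact absurd (mem_range.2 hN) h

theorem two_aux {N : ℕ} (hN : 1 ≤ N) (h1 : 2 ∣ (2 * N).choose N)
    (h2 : ∀ j ∈ range N, j ≠ 0 → 2 ∣ (2 * N).choose j) {g h : ℤ[X]} (hgh : g * h = PZ N)
    (hh : 0 < h.natDegree) : (2 : ℤ) ∣ h.leadingCoeff := by
  by_contra hc
  set f := Int.castRingHom (ZMod 2) with hf
  have hlcK : f h.leadingCoeff ≠ 0 := by
    intro h3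
    apply hc
    rw [hf, eq_intCast] at h3
    exact_mod_cast (CharP.intCast_eq_zero_iff (ZMod 2) 2 _).1 h3
  have hdeg : (h.map f).natDegree = h.natDegree := natDegree_map_of_leadingCoeff_ne_zero f hlcK
  have hprod : g.map f * h.map f = 1 + X := by
    rw [← Polynomial.map_mul, hgh, map_two hN h1 h2]
  have hne : (1 + X : (ZMod 2)[X]) ≠ 0 := by
    rw [add_comm, ← C_1]; exact X_add_C_ne_zero _
  have hle : (h.map f).natDegree ≤ (1 + X : (ZMod 2)[X]).natDegree :=
    natDegree_le_of_dvd (Dvd.intro_left _ hprod) hne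
  have h1X : (1 + X : (ZMod 2)[X]).natDegree = 1 := by
    rw [add_comm, ← C_1]; exact natDegree_X_add_C _
  rw [h1X, hdeg] at hle
  obtain ⟨e, he⟩ := even_natDegree hN hgh
  omega

theorem two_case {N : ℕ} (hN : 1 ≤ N) (h1 : 2 ∣ (2 * N).choose N) (h4 : ¬ 4 ∣ (2 * N).choose N)
    (h2 : ∀ j ∈ range N, j ≠ 0 → 2 ∣ (2 * N).choose j) {g h : ℤ[X]} (hgh : g * h = PZ N)
    (hg : 0 < g.natDegree) (hh : 0 < h.natDegree) : False := by
  have h3 := two_aux hN h1 h2 hgh hh
  have h5 := two_aux hN h1 h2 (by rw [mul_comm]; exact hgh : h * g = PZ N) hg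
  apply h4
  have hlc : g.leadingCoeff * h.leadingCoeff = (((2 * N).choose N : ℕ) : ℤ) := by
    rw [← leadingCoeff_mul, hgh, leadingCoeff_PZ]
  have h6 := mul_dvd_mul h5 h3
  rw [hlc] at h6
  norm_num at h6
  exact_mod_cast h6

theorem mid_case {N : ℕ} (hN : N ∈ ({7, 9, 10, 11, 12, 13, 14, 15, 16, 17, 18, 19, 20} : Finset ℕ))
    {g h : ℤ[X]} (hgh : g * h = PZ N) (hg : 0 < g.natDegree) (hh : 0 < h.natDegree) : False := by
  have hN1 : 1 ≤ N := by
    simp only [Finset.mem_insert, Finset.mem_singleton] at hN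
    omega
  obtain ⟨e, he⟩ := even_natDegree hN1 hgh
  have hgz : g ≠ 0 := by rintro rfl; simp at hg
  have hhz : h ≠ 0 := by rintro rfl; simp at hh
  have hsum : g.natDegree + h.natDegree = 2 * N := by
    rw [← natDegree_mul hgz hhz, hgh, natDegree_PZ]
  obtain ⟨q, hq, h1, h2, h3⟩ := mid_check N hN e (mem_range.2 (by omega)) (by omega)
  have hqp : q.Prime ∧ q ≠ 2 := by
    simp only [Finset.mem_insert, Finset.mem_singleton] at hq
    rcases hq with rfl | rfl | rfl | rfl | rfl | rfl | rfl | rfl <;> norm_num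
  have := four hN1 hgh hg hh hqp.1 hqp.2 h1 h2
  omega

theorem no_factor {N : ℕ} (hN : 1 ≤ N) {g h : ℤ[X]} (hgh : g * h = PZ N)
    (hg : 0 < g.natDegree) (hh : 0 < h.natDegree) : False := by
  by_cases h21 : 21 ≤ N
  · exact large_case h21 hgh hg hh
  by_cases hmid : N ∈ ({7, 9, 10, 11, 12, 13, 14, 15, 16, 17, 18, 19, 20} : Finset ℕ)
  · exact mid_case hmid hgh hg hh
  simp only [Finset.mem_insert, Finset.mem_singleton] at hmid
  have hsmall : N = 1 ∨ N = 2 ∨ N = 3 ∨ N = 4 ∨ N = 5 ∨ N = 6 ∨ N = 8 := by omega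
  have hgz : g ≠ 0 := by rintro rfl; simp at hg
  have hhz : h ≠ 0 := by rintro rfl; simp at hh
  have hsum : g.natDegree + h.natDegree = 2 * N := by
    rw [← natDegree_mul hgz hhz, hgh, natDegree_PZ]
  obtain ⟨e1, he1⟩ := even_natDegree hN hgh
  obtain ⟨e2, he2⟩ := even_natDegree hN (by rw [mul_comm]; exact hgh : h * g = PZ N)
  obtain ⟨g', h', hgh', hg', hh', hg0, hh0⟩ := normalise hN hgh
  have hhg' : h' * g' = PZ N := by rw [mul_comm]; exact hgh'
  rcases hsmall with rfl | rfl | rfl | rfl | rfl | rfl | rfl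
  · omega
  · exact two_case (by norm_num) (by decide) (by decide) (by decide) hgh hg hh
  · have hd : g.natDegree = 2 ∨ h.natDegree = 2 := by omega
    rcases hd with hd | hd
    · exact no_3_2 hgh' hg0 hh0 (by omega)
    · exact no_3_2 hhg' hh0 hg0 (by omega)
  · exact two_case (by norm_num) (by decide) (by decide) (by decide) hgh hg hh
  · have h7 := four hN hgh hg hh (q := 7) (by norm_num) (by norm_num) (by norm_num) (by norm_num)
    have hd : g.natDegree = 4 ∨ h.natDegree = 4 := by omega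
    rcases hd with hd | hd
    · exact no_5_4 hgh' hg0 hh0 (by omega)
    · exact no_5_4 hhg' hh0 hg0 (by omega)
  · have h7 := four hN hgh hg hh (q := 7) (by norm_num) (by norm_num) (by norm_num) (by norm_num)
    have h11 := four hN hgh hg hh (q := 11) (by norm_num) (by norm_num) (by norm_num) (by norm_num)
    have hd : g.natDegree = 2 ∨ h.natDegree = 2 := by omega
    rcases hd with hd | hd
    · exact no_6_2 hgh' hg0 hh0 (by omega)
    · exact no_6_2 hhg' hh0 hg0 (by omega)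
  · exact two_case (by norm_num) (by decide) (by decide) (by decide) hgh hg hh

theorem irreducible_PZ {N : ℕ} (hN : 1 ≤ N) : Irreducible (PZ N) := by
  have hone : ∀ g h : ℤ[X], g * h = PZ N → g.natDegree = 0 → IsUnit g := by
    intro g h hgh hg
    obtain ⟨c, rfl⟩ := natDegree_eq_zero.1 hg
    have h0 : (C c * h).coeff 0 = 1 := by rw [hgh, coeff_zero_PZ N hN]
    rw [coeff_C_mul] at h0
    exact isUnit_C.2 (IsUnit.of_mul_eq_one _ h0)
  constructor
  · intro hu
    have := natDegree_eq_zero_of_isUnit hu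
    rw [natDegree_PZ] at this
    omega
  · intro g h hgh
    by_contra hcon
    rw [not_or] at hcon
    have hg : 0 < g.natDegree := by
      rw [pos_iff_ne_zero]
      intro h0
      exact hcon.1 (hone g h hgh.symm h0)
    have hh : 0 < h.natDegree := by
      rw [pos_iff_ne_zero]
      intro h0
      exact hcon.2 (hone h g (by rw [mul_comm]; exact hgh.symm) h0)
    exact no_factor hN hgh.symm hg hh

theorem primitive_PZ {N : ℕ} (hN : 1 ≤ N) : (PZ N).IsPrimitive := by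
  intro r hr
  obtain ⟨h, hh⟩ := hr
  have h0 : (C r * h).coeff 0 = 1 := by rw [← hh, coeff_zero_PZ N hN]
  rw [coeff_C_mul] at h0
  exact IsUnit.of_mul_eq_one _ h0

theorem irreducible_map_PZ {N : ℕ} (hN : 1 ≤ N) :
    Irreducible ((PZ N).map (Int.castRingHom ℚ)) :=
  (IsPrimitive.Int.irreducible_iff_irreducible_map_cast (primitive_PZ hN)).1 (irreducible_PZ hN)

theorem main : ∀ n : ℕ, 2 ≤ n → Even n →
    Irreducible ((∑ k ∈ range (n + 1), C (((n.choose ((n - k) / 2) : ℕ)) : ℤ) * X ^ (n - k)).map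
      (Int.castRingHom ℚ)) := by
  rintro n hn ⟨N, hN⟩
  obtain rfl : n = 2 * N := by omega
  rw [sum_eq]
  exact irreducible_map_PZ (by omega)

end Pool.Agent.N926.Pasc
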