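import Mathlib

/-! The even-index Pascalian polynomials `(1 + X) ∑_{j<N} C(2N,j) X^{2j} + C(2N,N) X^{2N}`. -/

set_option autoImplicit false

namespace Pool.Agent.N926.Pasc

open Nat Finset Polynomial

/-- the polynomial -/
noncomputable def PZ (N : ℕ) : ℤ[X] :=
  (1 + X) * ∑ j ∈ range N, C (((2 * N).choose j : ℕ) : ℤ) * X ^ (2 * j) +
    C (((2 * N).choose N : ℕ) : ℤ) * X ^ (2 * N)

theorem sum_parity {M : Type*} [AddCommMonoid M] (f : ℕ → M) (N : ℕ) :
    ∑ i ∈ range (2 * N), f i = ∑ j ∈ range N, (f (2 * j) + f (2 * j + 1)) := by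
  induction N with
  | zero => simp
  | succ n ih =>
    rw [show 2 * (n + 1) = 2 * n + 1 + 1 by ring, sum_range_succ, sum_range_succ, ih,
      sum_range_succ, add_assoc]

/-- the sum in the order of the question -/
theorem sum_eq (N : ℕ) :
    ∑ k ∈ range (2 * N + 1), C ((((2 * N).choose ((2 * N - k) / 2) : ℕ)) : ℤ) * X ^ (2 * N - k)
      = PZ N := by
  have h1 := Finset.sum_range_reflect
    (fun i => (C ((((2 * N).choose (i / 2) : ℕ)) : ℤ) * X ^ i : ℤ[X])) (2 * N + 1)
  have h2 : ∀ k ∈ range (2 * N + 1),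
      (C ((((2 * N).choose ((2 * N - k) / 2) : ℕ)) : ℤ) * X ^ (2 * N - k) : ℤ[X]) =
      (fun i => (C ((((2 * N).choose (i / 2) : ℕ)) : ℤ) * X ^ i : ℤ[X])) (2 * N + 1 - 1 - k) := by
    intro k _
    simp only [Nat.add_sub_cancel]
  rw [Finset.sum_congr rfl h2, h1, sum_range_succ, sum_parity]
  have h3 : ∀ j, (2 * j) / 2 = j := fun j => by omega
  have h4 : ∀ j, (2 * j + 1) / 2 = j := fun j => by omega
  simp only [h3, h4]
  rw [PZ, add_mul, one_mul, Finset.mul_sum, ← Finset.sum_add_distrib]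
  congr 1
  refine Finset.sum_congr rfl fun j _ => ?_
  ring

/-- evaluation -/
theorem eval₂_PZ {R : Type*} [CommRing R] (f : ℤ →+* R) (x : R) (N : ℕ) :
    (PZ N).eval₂ f x = (1 + x) * ∑ j ∈ range N, (((2 * N).choose j : ℕ) : R) * x ^ (2 * j) +
      (((2 * N).choose N : ℕ) : R) * x ^ (2 * N) := by
  rw [PZ]
  simp [eval₂_add, eval₂_mul, eval₂_finsetSum, eval₂_pow]

theorem map_PZ {R : Type*} [CommRing R] (f : ℤ →+* R) (N : ℕ) :
    (PZ N).map f = (1 + X) * ∑ j ∈ range N, C (((2 * N).choose j : ℕ) : R) * X ^ (2 * j) +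
      C (((2 * N).choose N : ℕ) : R) * X ^ (2 * N) := by
  rw [PZ]
  simp [Polynomial.map_add, Polynomial.map_mul, Polynomial.map_sum]

/-- alternating partial sums of binomial coefficients -/
theorem alt_sum (R : Type*) [CommRing R] (n m : ℕ) :
    ∑ j ∈ range (m + 1), (((n + 1).choose j : ℕ) : R) * (-1) ^ j = (-1) ^ m * ((n.choose m : ℕ) : R) := by
  induction m with
  | zero => simp
  | succ m ih =>
    rw [sum_range_succ, ih, Nat.choose_succ_succ]
    push_cast
    ring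

/-- the value at a square root of `-1` -/
theorem eval₂_sqrt {R : Type*} [CommRing R] (f : ℤ →+* R) (x : R) (hx : x ^ 2 = -1) (N : ℕ)
    (hN : 1 ≤ N) :
    (PZ N).eval₂ f x = (-1) ^ N * (((2 * N - 1).choose (N - 1) : ℕ) : R) * (1 - x) := by
  obtain ⟨m, rfl⟩ : ∃ m, N = m + 1 := ⟨N - 1, by omega⟩
  rw [eval₂_PZ]
  have h1 : ∀ j, x ^ (2 * j) = (-1) ^ j := fun j => by rw [pow_mul, hx]
  simp only [h1]
  have h2 := alt_sum R (2 * m + 1) m
  rw [show 2 * (m + 1) = 2 * m + 1 + 1 by ring, h2]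
  have h3 : (2 * m + 1 + 1).choose (m + 1) = 2 * (2 * m + 1).choose m := by
    rw [Nat.choose_succ_succ, ← Nat.choose_symm_half]
    ring
  rw [h3]
  simp only [Nat.add_sub_cancel]
  push_cast
  ring

theorem choose_half (N : ℕ) (hN : 1 ≤ N) :
    (2 * N).choose N = 2 * (2 * N - 1).choose (N - 1) := by
  obtain ⟨m, rfl⟩ : ∃ m, N = m + 1 := ⟨N - 1, by omega⟩
  have h3 : (2 * m + 1 + 1).choose (m + 1) = 2 * (2 * m + 1).choose m := by
    rw [Nat.choose_succ_succ, ← Nat.choose_symm_half]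
    ring
  rw [show 2 * (m + 1) = 2 * m + 1 + 1 by ring, h3]
  simp only [Nat.add_sub_cancel]

theorem natDegree_aux {R : Type*} [CommRing R] [Nontrivial R] (N : ℕ) (a : ℕ → R) :
    ((1 + X) * ∑ j ∈ range N, C (a j) * X ^ (2 * j) : R[X]).degree < (2 * N : ℕ) := by
  rcases Nat.eq_zero_or_pos N with rfl | hN
  · simp only [range_zero, sum_empty, mul_zero, degree_zero]
    exact WithBot.bot_lt_coe _
  have h1 : (∑ j ∈ range N, C (a j) * X ^ (2 * j) : R[X]).natDegree ≤ 2 * N - 2 := by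
    apply natDegree_sum_le_of_forall_le
    intro j hj
    rw [mem_range] at hj
    exact (natDegree_C_mul_X_pow_le _ _).trans (by omega)
  have h2 : ((1 + X) * ∑ j ∈ range N, C (a j) * X ^ (2 * j) : R[X]).natDegree ≤ 2 * N - 1 := by
    refine natDegree_mul_le.trans ?_
    have h3 : (1 + X : R[X]).natDegree ≤ 1 := by
      refine (natDegree_add_le _ _).trans ?_
      simp
    omega
  refine (degree_le_of_natDegree_le h2).trans_lt ?_
  exact_mod_cast (by omega : 2 * N - 1 < 2 * N)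

theorem degree_PZ (N : ℕ) : (PZ N).degree = (2 * N : ℕ) := by
  have hc : (((2 * N).choose N : ℕ) : ℤ) ≠ 0 := by
    have := Nat.choose_pos (show N ≤ 2 * N by omega)
    exact_mod_cast this.ne'
  have h1 : (C (((2 * N).choose N : ℕ) : ℤ) * X ^ (2 * N) : ℤ[X]).degree = (2 * N : ℕ) :=
    degree_C_mul_X_pow _ hc
  rw [PZ, degree_add_eq_right_of_degree_lt, h1]
  rw [h1]
  exact natDegree_aux N _

theorem natDegree_PZ (N : ℕ) : (PZ N).natDegree = 2 * N :=
  natDegree_eq_of_degree_eq_some (degree_PZ N)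

theorem leadingCoeff_PZ (N : ℕ) : (PZ N).leadingCoeff = (((2 * N).choose N : ℕ) : ℤ) := by
  have hc : (((2 * N).choose N : ℕ) : ℤ) ≠ 0 := by
    have := Nat.choose_pos (show N ≤ 2 * N by omega)
    exact_mod_cast this.ne'
  have h1 : (C (((2 * N).choose N : ℕ) : ℤ) * X ^ (2 * N) : ℤ[X]).degree = (2 * N : ℕ) :=
    degree_C_mul_X_pow _ hc
  rw [PZ, leadingCoeff_add_of_degree_lt, leadingCoeff_C_mul_X_pow]
  rw [h1]
  exact natDegree_aux N _

theorem PZ_ne_zero (N : ℕ) : PZ N ≠ 0 := by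
  intro h
  have := degree_PZ N
  rw [h, degree_zero] at this
  exact absurd this.symm (WithBot.coe_ne_bot)

theorem coeff_zero_PZ (N : ℕ) (hN : 1 ≤ N) : (PZ N).coeff 0 = 1 := by
  rw [coeff_zero_eq_eval_zero, ← eval₂_id, eval₂_PZ]
  have h1 : ∑ j ∈ range N, (((2 * N).choose j : ℕ) : ℤ) * (0 : ℤ) ^ (2 * j) = 1 := by
    rw [Finset.sum_eq_single 0]
    · simp
    · intro b _ hb
      rw [zero_pow (by omega), mul_zero]
    · intro h
      exact absurd (mem_range.2 hN) h
  rw [h1, zero_pow (by omega)]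
  ring

/-- no real roots -/
theorem pos_of_real (N : ℕ) (hN : 1 ≤ N) (x : ℝ) : 0 < (PZ N).eval₂ (Int.castRingHom ℝ) x := by
  rw [eval₂_PZ]
  set S := ∑ j ∈ range N, (((2 * N).choose j : ℕ) : ℝ) * x ^ (2 * j) with hS
  have hcpos : (0 : ℝ) < (((2 * N).choose N : ℕ) : ℝ) := by
    exact_mod_cast Nat.choose_pos (show N ≤ 2 * N by omega)
  have hterm : ∀ j, 0 ≤ (((2 * N).choose j : ℕ) : ℝ) * x ^ (2 * j) := fun j => by
    rw [pow_mul]
    positivity
  have hS1 : 1 ≤ S := by
    have := Finset.single_le_sum (f := fun j => (((2 * N).choose j : ℕ) : ℝ) * x ^ (2 * j))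
      (fun j _ => hterm j) (mem_range.2 hN : 0 ∈ range N)
    simpa using this
  have hlast : 0 ≤ (((2 * N).choose N : ℕ) : ℝ) * x ^ (2 * N) := hterm N
  rcases lt_trichotomy (1 + x) 0 with h | h | h
  · -- x < -1
    set t := x ^ 2 with ht
    have ht1 : 1 < t := by nlinarith
    have hS2 : S ≤ (((2 * N).choose N : ℕ) : ℝ) * ∑ j ∈ range N, t ^ j := by
      rw [Finset.mul_sum]
      apply Finset.sum_le_sum
      intro j _
      rw [pow_mul]
      apply mul_le_mul_of_nonneg_right _ (by positivity)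
      have h5 := Nat.choose_le_middle j (2 * N)
      rw [show 2 * N / 2 = N by omega] at h5
      exact_mod_cast h5
    have hgeom : (∑ j ∈ range N, t ^ j) * (t - 1) = t ^ N - 1 := geom_sum_mul t N
    have hgpos : 0 ≤ ∑ j ∈ range N, t ^ j := Finset.sum_nonneg fun j _ => by positivity
    have hx1 : (1 + x) * (1 - x) = 1 - t := by rw [ht]; ring
    -- -(1+x) ≤ t - 1
    have h6 : -(1 + x) ≤ t - 1 := by nlinarith
    have h7 : -(1 + x) * S ≤ (t - 1) * ((((2 * N).choose N : ℕ) : ℝ) * ∑ j ∈ range N, t ^ j) := by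
      apply mul_le_mul h6 hS2 (by linarith) (by linarith)
    have h8 : (t - 1) * ((((2 * N).choose N : ℕ) : ℝ) * ∑ j ∈ range N, t ^ j) =
        (((2 * N).choose N : ℕ) : ℝ) * (t ^ N - 1) := by rw [← hgeom]; ring
    have h9 : x ^ (2 * N) = t ^ N := by rw [pow_mul]
    rw [h9]
    nlinarith
  · rw [h, zero_mul, zero_add]
    have hx : x = -1 := by linarith
    rw [hx, pow_mul]
    have h10 : ((-1 : ℝ) ^ 2) ^ N = 1 := by norm_num
    rw [h10, mul_one]
    exact hcpos
  · nlinarith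

/-- reduction modulo a prime `q` with `N < q ≤ 2N` -/
theorem map_mod {q N : ℕ} (hq : q.Prime) (h1 : N < q) (h2 : q ≤ 2 * N) {R : Type*} [CommRing R]
    [CharP R q] (f : ℤ →+* R) :
    (PZ N).map f = (1 + X) * (X ^ 2 + 1) ^ (2 * N - q) := by
  have := Fact.mk hq
  rw [map_PZ]
  have h3 : ((((2 * N).choose N : ℕ)) : R) = 0 := by
    rw [CharP.cast_eq_zero_iff R q]
    exact hq.dvd_choose h1 (by omega) h2
  have h4 : ∀ j ∈ range N, ((((2 * N).choose j : ℕ)) : R) = (((2 * N - q).choose j : ℕ) : R) := by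
    intro j hj
    rw [mem_range] at hj
    rw [CharP.cast_eq_iff_mod_eq R q]
    have h5 : (2 * N).choose j ≡ ((2 * N) % q).choose (j % q) * ((2 * N) / q).choose (j / q) [MOD q] :=
      Choose.choose_modEq_choose_mod_mul_choose_div_nat
    have h6 : (2 * N) % q = 2 * N - q := by
      rw [Nat.mod_eq_sub_mod h2, Nat.mod_eq_of_lt (by omega)]
    have h7 : j % q = j := Nat.mod_eq_of_lt (by omega)
    have h8 : j / q = 0 := Nat.div_eq_of_lt (by omega)
    rw [h6, h7, h8, Nat.choose_zero_right, mul_one] at h5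
    exact h5
  rw [h3, C_0, zero_mul, add_zero]
  congr 1
  rw [add_pow]
  have h9 : range (2 * N - q + 1) ⊆ range N := range_subset_range.2 (by omega)
  rw [Finset.sum_congr rfl (fun j hj => by rw [h4 j hj])]
  rw [← Finset.sum_subset h9]
  · refine Finset.sum_congr rfl fun j _ => ?_
    rw [one_pow, mul_one, ← pow_mul, mul_comm]
    simp
  · intro j _ hj
    rw [mem_range] at hj
    rw [Nat.choose_eq_zero_of_lt (by omega)]
    simp

/-- `q` divides the leading coefficient exactly once -/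
theorem dvd_lead {q N : ℕ} (hq : q.Prime) (h1 : N < q) (h2 : q ≤ 2 * N) :
    q ∣ (2 * N).choose N ∧ ¬ q ^ 2 ∣ (2 * N).choose N := by
  refine ⟨hq.dvd_choose h1 (by omega) h2, fun h => ?_⟩
  have h3 : (2 * N).choose N ∣ (2 * N)! := by
    have := Nat.choose_mul_factorial_mul_factorial (show N ≤ 2 * N by omega)
    rw [← this, mul_assoc]
    exact dvd_mul_right _ _
  have h4 : q ^ 2 ∣ (2 * N)! := h.trans h3
  rw [hq.pow_dvd_factorial_iff (b := 2 * N + 1) (by
    refine (Nat.log_lt_self q (by omega)).trans (by omega))] at h4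
  have h5 : ∑ i ∈ Finset.Ico 1 (2 * N + 1), 2 * N / q ^ i = 1 := by
    rw [Finset.sum_eq_single 1]
    · rw [pow_one]
      apply Nat.div_eq_of_lt_le <;> omega
    · intro i hi hi1
      rw [Finset.mem_Ico] at hi
      apply Nat.div_eq_of_lt
      calc 2 * N < q * q := by nlinarith [hq.two_le]
        _ = q ^ 2 := by ring
        _ ≤ q ^ i := Nat.pow_le_pow_right hq.pos (by omega)
    · intro h
      exact absurd (Finset.mem_Ico.2 ⟨le_rfl, by omega⟩) h
  omega

end Pool.Agent.N926.Pasc
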