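import Mathlib

/-! At least five primes in `(n, 2n]` for `n ≥ 21`. -/

set_option autoImplicit false

namespace Pool.Agent.N926.Pasc

open Nat Finset

/-- the primes in `(n, 2n]` -/
def PS (n : ℕ) : Finset ℕ := (Finset.Ioc n (2 * n)).filter Nat.Prime

theorem centralBinom_le (n : ℕ) (n_large : 2 < n) :
    centralBinom n ≤ (2 * n) ^ (sqrt (2 * n) + (PS n).card) * 4 ^ (2 * n / 3) := by
  have n_pos : 0 < n := (Nat.zero_le _).trans_lt n_large
  have n2_pos : 1 ≤ 2 * n := mul_pos (zero_lt_two' ℕ) n_pos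
  let f : ℕ → ℕ := fun x => x ^ n.centralBinom.factorization x
  have h0 : centralBinom n = ∏ p ∈ Finset.range (2 * n + 1), f p :=
    n.prod_pow_factorization_centralBinom.symm
  -- split off the primes in (n, 2n]
  have h1 : ∏ p ∈ Finset.range (2 * n + 1), f p =
      (∏ p ∈ (Finset.range (2 * n + 1)).filter (fun p => p ∈ PS n), f p) *
      ∏ p ∈ (Finset.range (2 * n + 1)).filter (fun p => ¬ p ∈ PS n), f p :=
    (Finset.prod_filter_mul_prod_filter_not _ _ _).symm
  have h2 : ∏ p ∈ (Finset.range (2 * n + 1)).filter (fun p => p ∈ PS n), f p ≤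
      (2 * n) ^ (PS n).card := by
    refine (Finset.prod_le_prod' fun p _ => (?_ : f p ≤ 2 * n)).trans ?_
    · exact pow_factorization_choose_le (mul_pos two_pos n_pos)
    · rw [Finset.prod_const]
      refine pow_right_mono₀ n2_pos (Finset.card_le_card fun x hx => ?_)
      exact (Finset.mem_filter.1 hx).2
  let S := {p ∈ Finset.range (2 * n / 3 + 1) | Nat.Prime p}
  have h3 : ∏ p ∈ (Finset.range (2 * n + 1)).filter (fun p => ¬ p ∈ PS n), f p = ∏ p ∈ S, f p := by
    symm
    apply Finset.prod_subset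
    · intro x hx
      obtain ⟨h4, h5⟩ := Finset.mem_filter.1 hx
      rw [Finset.mem_range, Nat.lt_succ_iff] at h4
      rw [Finset.mem_filter, Finset.mem_range]
      refine ⟨by omega, fun h6 => ?_⟩
      have h7 := (Finset.mem_filter.1 h6).1
      rw [Finset.mem_Ioc] at h7
      omega
    · intro x hx h2x
      obtain ⟨h4, h5⟩ := Finset.mem_filter.1 hx
      rw [Finset.mem_range, Nat.lt_succ_iff] at h4
      show x ^ n.centralBinom.factorization x = 1
      by_cases hp : x.Prime
      · have h6 : ¬ x < 2 * n / 3 + 1 := fun h => h2x (Finset.mem_filter.2 ⟨Finset.mem_range.2 h, hp⟩)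
        have h7 : x ≤ n := by
          by_contra h8
          exact h5 (Finset.mem_filter.2 ⟨Finset.mem_Ioc.2 ⟨by omega, h4⟩, hp⟩)
        rw [factorization_centralBinom_of_two_mul_self_lt_three_mul n_large h7 (by omega),
          Nat.pow_zero]
      · rw [factorization_eq_zero_of_not_prime n.centralBinom hp, Nat.pow_zero]
  have h4 : ∏ p ∈ S, f p ≤ (2 * n) ^ sqrt (2 * n) * 4 ^ (2 * n / 3) := by
    rw [← Finset.prod_filter_mul_prod_filter_not S (· ≤ sqrt (2 * n))]
    apply mul_le_mul'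
    · refine (Finset.prod_le_prod' fun p _ => (?_ : f p ≤ 2 * n)).trans ?_
      · exact pow_factorization_choose_le (mul_pos two_pos n_pos)
      have : (Finset.Icc 1 (sqrt (2 * n))).card = sqrt (2 * n) := by
        rw [card_Icc, Nat.add_sub_cancel]
      rw [Finset.prod_const]
      refine pow_right_mono₀ n2_pos ((Finset.card_le_card fun x hx => ?_).trans this.le)
      obtain ⟨h1, h2⟩ := Finset.mem_filter.1 hx
      exact Finset.mem_Icc.mpr ⟨(Finset.mem_filter.1 h1).2.one_lt.le, h2⟩
    · refine le_trans ?_ (primorial_le_four_pow (2 * n / 3))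
      refine (Finset.prod_le_prod' fun p hp => (?_ : f p ≤ p)).trans ?_
      · obtain ⟨h1, h2⟩ := Finset.mem_filter.1 hp
        refine (pow_right_mono₀ (Finset.mem_filter.1 h1).2.one_lt.le ?_).trans (pow_one p).le
        exact Nat.factorization_choose_le_one (sqrt_lt'.mp <| not_le.1 h2)
      refine Finset.prod_le_prod_of_subset_of_one_le' (Finset.filter_subset _ _) ?_
      exact fun p hp _ => (Finset.mem_filter.1 hp).2.one_lt.le
  rw [h0, h1, h3]
  calc _ ≤ (2 * n) ^ (PS n).card * ((2 * n) ^ sqrt (2 * n) * 4 ^ (2 * n / 3)) :=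
        Nat.mul_le_mul h2 h4
    _ = _ := by rw [pow_add]; ring

theorem pow8 (s : ℕ) (hs : 44 ≤ s) : (s + 1) ^ 8 ≤ 2 ^ s := by
  induction s, hs using Nat.le_induction with
  | base => norm_num
  | succ m hm ih =>
    have h1 : (m + 2) ^ 8 ≤ 2 * (m + 1) ^ 8 := by
      have h2 : 8 * (m + 2) ≤ 9 * (m + 1) := by omega
      have h3 : (8 * (m + 2)) ^ 8 ≤ (9 * (m + 1)) ^ 8 := Nat.pow_le_pow_left h2 8
      rw [mul_pow, mul_pow] at h3
      -- need a sharper ratio
      have h4 : 45 * (m + 2) ≤ 46 * (m + 1) := by omega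
      have h5 : (45 * (m + 2)) ^ 8 ≤ (46 * (m + 1)) ^ 8 := Nat.pow_le_pow_left h4 8
      rw [mul_pow, mul_pow] at h5
      have h6 : 46 ^ 8 ≤ 2 * 45 ^ 8 := by norm_num
      have h7 : 45 ^ 8 * (m + 2) ^ 8 ≤ 45 ^ 8 * (2 * (m + 1) ^ 8) := by
        calc 45 ^ 8 * (m + 2) ^ 8 ≤ 46 ^ 8 * (m + 1) ^ 8 := h5
          _ ≤ (2 * 45 ^ 8) * (m + 1) ^ 8 := Nat.mul_le_mul_right _ h6
          _ = _ := by ring
      exact Nat.le_of_mul_le_mul_left h7 (by positivity)
    calc (m + 1 + 1) ^ 8 ≤ 2 * (m + 1) ^ 8 := h1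
      _ ≤ 2 * 2 ^ m := Nat.mul_le_mul_left _ ih
      _ = 2 ^ (m + 1) := by rw [pow_succ]; ring

theorem large (n : ℕ) (hn : 968 ≤ n) : 5 ≤ (PS n).card := by
  by_contra hcon
  have hc : (PS n).card ≤ 4 := by omega
  have h1 : 4 ^ n < n * n.centralBinom := Nat.four_pow_lt_mul_centralBinom n (by omega)
  have h2 := centralBinom_le n (by omega)
  set s := sqrt (2 * n) with hs
  have h3 : (2 * n) ^ (s + (PS n).card) ≤ (2 * n) ^ (s + 4) :=
    Nat.pow_le_pow_right (by omega) (by omega)
  have h4 : 4 ^ n < (2 * n) ^ (s + 5) * 4 ^ (2 * n / 3) := by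
    calc 4 ^ n < n * n.centralBinom := h1
      _ ≤ n * ((2 * n) ^ (s + (PS n).card) * 4 ^ (2 * n / 3)) := Nat.mul_le_mul_left _ h2
      _ ≤ (2 * n) * ((2 * n) ^ (s + 4) * 4 ^ (2 * n / 3)) :=
          Nat.mul_le_mul (by omega) (Nat.mul_le_mul_right _ h3)
      _ = _ := by ring
  have h5 : 4 ^ (n - 2 * n / 3) < (2 * n) ^ (s + 5) := by
    have h6 : 4 ^ n = 4 ^ (n - 2 * n / 3) * 4 ^ (2 * n / 3) := by
      rw [← pow_add]; congr 1; omega
    rw [h6] at h4
    exact Nat.lt_of_mul_lt_mul_right h4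
  have hs1 : s * s ≤ 2 * n := Nat.sqrt_le _
  have hs2 : 2 * n < (s + 1) * (s + 1) := Nat.lt_succ_sqrt _
  have hs44 : 44 ≤ s := by
    rw [hs]
    apply Nat.le_sqrt.2
    omega
  have h7 : (2 * n) ^ (s + 5) ≤ ((s + 1) * (s + 1)) ^ (s + 5) := Nat.pow_le_pow_left hs2.le _
  have h8 : (4 ^ (n - 2 * n / 3)) ^ 8 < (((s + 1) * (s + 1)) ^ (s + 5)) ^ 8 :=
    Nat.pow_lt_pow_left (h5.trans_le h7) (by norm_num)
  have h9 : (((s + 1) * (s + 1)) ^ (s + 5)) ^ 8 = ((s + 1) ^ 8) ^ (2 * (s + 5)) := by
    rw [← pow_two, ← pow_mul, ← pow_mul, ← pow_mul]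
    congr 1; ring
  have h10 : ((s + 1) ^ 8) ^ (2 * (s + 5)) ≤ (2 ^ s) ^ (2 * (s + 5)) :=
    Nat.pow_le_pow_left (pow8 s hs44) _
  have h11 : (4 ^ (n - 2 * n / 3)) ^ 8 = 2 ^ (16 * (n - 2 * n / 3)) := by
    rw [← pow_mul, show (4:ℕ) = 2 ^ 2 by norm_num, ← pow_mul]
    congr 1; ring
  have h12 : (2 ^ s) ^ (2 * (s + 5)) = 2 ^ (s * (2 * (s + 5))) := by rw [← pow_mul]
  rw [h11, h9] at h8
  have h13 := h8.trans_le (h10.trans h12.le)
  have h14 := (Nat.pow_lt_pow_iff_right (by norm_num : 1 < 2)).1 h13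
  have h15 : n ≤ 3 * (n - 2 * n / 3) := by omega
  have h16 : 3 * (16 * (n - 2 * n / 3)) < 3 * (s * (2 * (s + 5))) := by omega
  nlinarith [h15, h16, hs1, hs44]

theorem of_tuple (n a b c d e : ℕ) (ha : a.Prime) (hb : b.Prime) (hc : c.Prime) (hd : d.Prime)
    (he : e.Prime) (hab : a < b) (hbc : b < c) (hcd : c < d) (hde : d < e) (h1 : n < a)
    (h2 : e ≤ 2 * n) : 5 ≤ (PS n).card := by
  have h3 : ({a, b, c, d, e} : Finset ℕ) ⊆ PS n := by
    intro x hx
    simp only [Finset.mem_insert, Finset.mem_singleton] at hx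
    rw [PS, Finset.mem_filter, Finset.mem_Ioc]
    rcases hx with rfl | rfl | rfl | rfl | rfl
    · exact ⟨by omega, ha⟩
    · exact ⟨by omega, hb⟩
    · exact ⟨by omega, hc⟩
    · exact ⟨by omega, hd⟩
    · exact ⟨by omega, he⟩
  have h4 : ({a, b, c, d, e} : Finset ℕ).card = 5 := by
    rw [Finset.card_insert_of_notMem, Finset.card_insert_of_notMem, Finset.card_insert_of_notMem,
      Finset.card_insert_of_notMem, Finset.card_singleton]
    all_goals simp only [Finset.mem_insert, Finset.mem_singleton]; omega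
  calc 5 = ({a, b, c, d, e} : Finset ℕ).card := h4.symm
    _ ≤ _ := Finset.card_le_card h3

theorem five_primes (n : ℕ) (hn : 21 ≤ n) : 5 ≤ (PS n).card := by
  rcases Nat.lt_or_ge n 968 with h | h
  · rcases Nat.lt_or_ge n 23 with h1 | h1
    · exact of_tuple n 23 29 31 37 41 (by norm_num) (by norm_num) (by norm_num) (by norm_num)
        (by norm_num) (by norm_num) (by norm_num) (by norm_num) (by norm_num) (by omega) (by omega)
    rcases Nat.lt_or_ge n 29 with h2 | h2
    · exact of_tuple n 29 31 37 41 43 (by norm_num) (by norm_num) (by norm_num) (by norm_num)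
        (by norm_num) (by norm_num) (by norm_num) (by norm_num) (by norm_num) (by omega) (by omega)
    rcases Nat.lt_or_ge n 37 with h3 | h3
    · exact of_tuple n 37 41 43 47 53 (by norm_num) (by norm_num) (by norm_num) (by norm_num)
        (by norm_num) (by norm_num) (by norm_num) (by norm_num) (by norm_num) (by omega) (by omega)
    rcases Nat.lt_or_ge n 59 with h4 | h4
    · exact of_tuple n 59 61 67 71 73 (by norm_num) (by norm_num) (by norm_num) (by norm_num)
        (by norm_num) (by norm_num) (by norm_num) (by norm_num) (by norm_num) (by omega) (by omega)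
    rcases Nat.lt_or_ge n 101 with h5 | h5
    · exact of_tuple n 101 103 107 109 113 (by norm_num) (by norm_num) (by norm_num) (by norm_num)
        (by norm_num) (by norm_num) (by norm_num) (by norm_num) (by norm_num) (by omega) (by omega)
    rcases Nat.lt_or_ge n 181 with h6 | h6
    · exact of_tuple n 181 191 193 197 199 (by norm_num) (by norm_num) (by norm_num) (by norm_num)
        (by norm_num) (by norm_num) (by norm_num) (by norm_num) (by norm_num) (by omega) (by omega)
    rcases Nat.lt_or_ge n 337 with h7 | h7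
    · exact of_tuple n 337 347 349 353 359 (by norm_num) (by norm_num) (by norm_num) (by norm_num)
        (by norm_num) (by norm_num) (by norm_num) (by norm_num) (by norm_num) (by omega) (by omega)
    rcases Nat.lt_or_ge n 647 with h8 | h8
    · exact of_tuple n 647 653 659 661 673 (by norm_num) (by norm_num) (by norm_num) (by norm_num)
        (by norm_num) (by norm_num) (by norm_num) (by norm_num) (by norm_num) (by omega) (by omega)
    · exact of_tuple n 1277 1279 1283 1289 1291 (by norm_num) (by norm_num) (by norm_num)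
        (by norm_num) (by norm_num) (by norm_num) (by norm_num) (by norm_num) (by norm_num)
        (by omega) (by omega)
  · exact large n h

end Pool.Agent.N926.Pasc
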